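import Mathlib

set_option autoImplicit false

namespace Pool.Agent.Results.MP_e25dcb_al.Sixteen

open DihedralGroup

section
variable {W : Type} [Group W] (S : Set W)

/-- word length -/
noncomputable def len (w : W) : ℕ :=
  sInf {n | ∃ l : List W, (∀ s ∈ l, s ∈ S) ∧ l.prod = w ∧ l.length = n}

/-- `l` is a reduced word for `w` -/
def Red (l : List W) (w : W) : Prop := (∀ s ∈ l, s ∈ S) ∧ l.prod = w ∧ l.length = len S w

/-- right weak order -/
def le (u v : W) : Prop := ∃ l l', Red S l u ∧ Red S l' v ∧ l <+: l'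

/-- greatest lower bound in the weak order -/
def IsMeet (X : Set W) (m : W) : Prop :=
  (∀ x ∈ X, le S m x) ∧ ∀ y, (∀ x ∈ X, le S y x) → le S y m

/-- least upper bound in the weak order -/
def IsJoin (X : Set W) (j : W) : Prop :=
  (∀ x ∈ X, le S x j) ∧ ∀ y, (∀ x ∈ X, le S x y) → le S j y

/-- even meet involution system -/
def EMIS : Prop := S.Finite ∧ (∀ s ∈ S, s ≠ 1 ∧ s * s = 1) ∧ Subgroup.closure S = ⊤ ∧
  (∃ ε : W →* ℤˣ, ∀ s ∈ S, ε s = -1) ∧ ∀ X : Set W, X.Nonempty → ∃ m, IsMeet S X m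
end

abbrev G := DihedralGroup 4 × Multiplicative (ZMod 2)

def T : List G := [(sr 0, 1), (sr 1, 1), (sr 0, .ofAdd 1), (sr 3, .ofAdd 1)]

def d : G → ℕ
  | (r i, z) => [0, 2, 4, 2, 2, 2, 2, 2].getD (i.val + 4 * z.toAdd.val) 0
  | (sr i, z) => [1, 1, 3, 3, 1, 3, 3, 1].getD (i.val + 4 * z.toAdd.val) 0

lemma d1 : ∀ w, ∀ s ∈ T, d (s * w) ≤ d w + 1 := by decide +kernel
lemma d2 : ∀ w, w = 1 ∨ ∃ s ∈ T, d (s * w) + 1 = d w ∧ s * s = 1 := by decide +kernel
lemma d3 : ∀ u v, ∃ m, ∀ y, d y + d (y⁻¹ * m) = d m ↔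
    d y + d (y⁻¹ * u) = d u ∧ d y + d (y⁻¹ * v) = d v := by decide +kernel

lemma low (l : List G) (h : ∀ s ∈ l, s ∈ T) : d l.prod ≤ l.length := by
  induction l with
  | nil => decide
  | cons a l ih =>
    rw [List.prod_cons, List.length_cons]
    exact (d1 _ a (h a (by simp))).trans (Nat.succ_le_succ (ih fun s hs => h s (by simp [hs])))

lemma ex (n : ℕ) : ∀ w, d w = n → ∃ l : List G, (∀ s ∈ l, s ∈ T) ∧ l.prod = w ∧ l.length = n := by
  induction n with
  | zero => exact fun w h => ⟨[], by simp, ((d2 w).resolve_right fun ⟨s, _, h', _⟩ => by omega).symm,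
      rfl⟩
  | succ n ih =>
    intro w h
    obtain ⟨s, hs, h1, h2⟩ := (d2 w).resolve_left (by rintro rfl; exact absurd h (by
      rw [show d 1 = 0 by decide]; omega))
    obtain ⟨l, a, b, c⟩ := ih (s * w) (by omega)
    exact ⟨s :: l, List.forall_mem_cons.2 ⟨hs, a⟩, by rw [List.prod_cons, b, ← mul_assoc, h2, one_mul],
      by simp [c]⟩

lemma hlen (w : G) : len {s | s ∈ T} w = d w :=
  le_antisymm (Nat.sInf_le (ex _ w rfl)) (le_csInf ⟨_, ex _ w rfl⟩
    fun _ ⟨l, a, b, c⟩ => b ▸ c ▸ low l a)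

lemma hle (u v : G) : le {s | s ∈ T} u v ↔ d u + d (u⁻¹ * v) = d v := by
  have tri : ∀ u v, d v ≤ d u + d (u⁻¹ * v) := by decide +kernel
  simp only [le, Red, hlen]
  constructor
  · rintro ⟨l, _, ⟨-, rfl, b⟩, ⟨c, rfl, e⟩, t, rfl⟩
    have := low t fun s hs => c s (by simp [hs])
    have := tri l.prod (l ++ t).prod
    simp only [List.prod_append, inv_mul_cancel_left, List.length_append] at *
    omega
  · intro h
    obtain ⟨l, a, b, c⟩ := ex _ u rfl
    obtain ⟨t, a', b', c'⟩ := ex _ (u⁻¹ * v) rfl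
    exact ⟨l, l ++ t, ⟨a, b, c⟩, ⟨List.forall_mem_append.2 ⟨a, a'⟩, by simp [b, b'],
      by simp [c, c', h]⟩, t, rfl⟩

def ε : G →* ℤˣ := MonoidHom.mk' (fun w => (-1) ^ d w) (by decide +kernel)

/-- An EMIS of order 16 whose standard subgroup is closed under neither meets nor joins. -/
theorem result : ∃ (W : Type) (_ : Group W) (S I : Set W), EMIS S ∧ I ⊆ S ∧
    (∃ X : Set W, X ⊆ Subgroup.closure I ∧ X.Nonempty ∧
      ∃ m, IsMeet S X m ∧ m ∉ Subgroup.closure I) ∧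
    (∃ X : Set W, X ⊆ Subgroup.closure I ∧ ∃ j, IsJoin S X j ∧ j ∉ Subgroup.closure I) := by
  have hI : Subgroup.closure ({(sr 0, 1), (sr 1, 1)} : Set G) ≤ (MonoidHom.snd _ _).ker :=
    (Subgroup.closure_le _).2 (by rintro _ (rfl | rfl) <;> rfl)
  have a : (sr 0, 1) ∈ Subgroup.closure ({(sr 0, 1), (sr 1, 1)} : Set G) :=
    Subgroup.subset_closure (.inl rfl)
  have b : (sr 1, 1) ∈ Subgroup.closure ({(sr 0, 1), (sr 1, 1)} : Set G) :=
    Subgroup.subset_closure (.inr rfl)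
  refine ⟨G, inferInstance, {s | s ∈ T}, {(sr 0, 1), (sr 1, 1)}, ⟨T.finite_toSet, by decide,
    eq_top_iff.2 fun w _ => ?_, ⟨ε, by decide⟩, fun X hX => ?_⟩, by rintro _ (rfl | rfl) <;> decide,
    ⟨{(sr 3, 1), (r 3, 1)}, ?_, ⟨_, .inl rfl⟩, (sr 0, .ofAdd 1), ?_, fun h => absurd (hI h) (by decide)⟩,
    {(sr 1, 1), (r 1, 1)}, ?_, (sr 2, .ofAdd 1), ?_, fun h => absurd (hI h) (by decide)⟩
  · obtain ⟨l, a, rfl, -⟩ := ex _ w rfl
    exact list_prod_mem fun s hs => Subgroup.subset_closure (a s hs)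
  · refine Set.Finite.induction_on (motive := fun X _ => X.Nonempty → ∃ m, IsMeet _ X m) X
      X.toFinite (by simp) (fun {u X} _ _ ih _ => ?_) hX
    rcases X.eq_empty_or_nonempty with rfl | h
    · exact ⟨u, by simp [hle, show d 1 = 0 by decide], by simp⟩
    obtain ⟨v, h1, h2⟩ := ih h
    obtain ⟨m, hm⟩ := d3 u v
    have tr : ∀ x y z : G, d x + d (x⁻¹ * y) = d y → d y + d (y⁻¹ * z) = d z →
      d x + d (x⁻¹ * z) = d z := by decide +kernel
    have := (hm m).1 (by simp [show d 1 = 0 by decide])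
    simp only [IsMeet, hle, Set.forall_mem_insert] at h1 h2 ⊢
    exact ⟨m, ⟨this.1, fun x hx => tr _ _ _ this.2 (h1 x hx)⟩, fun y hy => (hm y).2 ⟨hy.1, h2 y hy.2⟩⟩
  · rintro _ (rfl | rfl)
    exacts [mul_mem a (mul_mem b a), mul_mem b a]
  · simp only [IsMeet, hle, Set.forall_mem_insert, Set.mem_singleton_iff, forall_eq]
    decide +kernel
  · rintro _ (rfl | rfl)
    exacts [b, mul_mem a b]
  · simp only [IsJoin, hle, Set.forall_mem_insert, Set.mem_singleton_iff, forall_eq]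
    decide +kernel

end Pool.Agent.Results.MP_e25dcb_al.Sixteen
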